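import Pool.Agent.E8helper17.CND.S

namespace H17CND

namespace CG

open SimpleGraph

/-- A cycle through the edge `s(w,u)` gives a path from `u` to `w` avoiding that edge. -/
theorem cycle_edge {V : Type*} {G : SimpleGraph V} {v : V} (c : G.Walk v v) (hc : c.IsCycle)
    {w u : V} (he : s(w, u) ∈ c.edges) :
    ∃ p : G.Walk u w, p.IsPath ∧ s(w, u) ∉ p.edges ∧ p.length + 1 = c.length := by
  classical
  have hw : w ∈ c.support := c.fst_mem_support_of_mem_edges he
  -- rotated cycle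
  obtain ⟨c1, hc1, hl1, he1⟩ : ∃ c1 : G.Walk w w, c1.IsCycle ∧ c1.length = c.length ∧
      s(w, u) ∈ c1.edges := by
    refine ⟨c.rotate w hw, hc.rotate hw, by simp, ?_⟩
    exact (c.rotate_edges w hw).mem_iff.2 he
  have key : ∀ c2 : G.Walk w w, c2.IsCycle → c2.snd = u →
      ∃ p : G.Walk u w, p.IsPath ∧ s(w, u) ∉ p.edges ∧ p.length + 1 = c2.length := by
    intro c2 hc2 hs
    cases c2 with
    | nil => exact absurd hc2 (by simp)
    | @cons _ u' _ h p =>
      have : u' = u := by simpa using hs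
      subst this
      rw [Walk.cons_isCycle_iff] at hc2
      exact ⟨p, hc2.1, hc2.2, by simp⟩
  have hadj : c1.toSubgraph.Adj w u := by
    rw [Walk.adj_toSubgraph_iff_mem_edges]; exact he1
  have hmem : u ∈ c1.toSubgraph.neighborSet w := hadj
  rw [hc1.neighborSet_toSubgraph_endpoint] at hmem
  rcases hmem with h | h
  · obtain ⟨p, h1, h2, h3⟩ := key c1 hc1 h.symm
    exact ⟨p, h1, h2, by omega⟩
  · have h' : u = c1.penultimate := h
    obtain ⟨p, h1, h2, h3⟩ := key c1.reverse hc1.reverse (by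
      rw [h', Walk.snd_reverse])
    exact ⟨p, h1, h2, by rw [Walk.length_reverse] at h3; omega⟩

variable {β : Type} {H : SimpleGraph β} {τ : Fin 4 → β}

theorem adj_bb {i i' : Fin 4} {s s' : Bool} {h h' : β} :
    (comp H τ).Adj (CV.b i s h) (CV.b i' s' h') ↔
      i = i' ∧ ((s = s' ∧ H.Adj h h') ∨ (s ≠ s' ∧ h = τ i ∧ h' = τ i)) := Iff.rfl

theorem adj_bx {i i' j : Fin 4} {s : Bool} {h : β} {hij : i' ≠ j} :
    (comp H τ).Adj (CV.b i s h) (CV.x i' j hij) ↔ i = i' ∧ h = τ j := Iff.rfl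

theorem adj_bm {i : Fin 4} {s : Bool} {h : β} {e : Sym2 (Fin 4)} {he : ¬ e.IsDiag} :
    (comp H τ).Adj (CV.b i s h) (CV.m e he) ↔ False := Iff.rfl

theorem adj_xx {i j i' j' : Fin 4} {h : i ≠ j} {h' : i' ≠ j'} :
    (comp H τ).Adj (CV.x i j h) (CV.x i' j' h') ↔ False := Iff.rfl

theorem adj_xm {i j : Fin 4} {h : i ≠ j} {e : Sym2 (Fin 4)} {he : ¬ e.IsDiag} :
    (comp H τ).Adj (CV.x i j h) (CV.m e he) ↔ e = s(i, j) := Iff.rfl

theorem adj_mm {e e' : Sym2 (Fin 4)} {he : ¬ e.IsDiag} {he' : ¬ e'.IsDiag} :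
    (comp H τ).Adj (CV.m e he) (CV.m e' he') ↔ False := Iff.rfl

/-- outside neighbours of a copy -/
theorem out_nbr {i : Fin 4} {s : Bool} {h : β} {y : CV β}
    (hy : y ∉ Bl i s) (ha : (comp H τ).Adj (CV.b i s h) y) :
    (h = τ i ∧ y = CV.b i (!s) (τ i)) ∨ ∃ j, ∃ hij : i ≠ j, h = τ j ∧ y = CV.x i j hij := by
  cases y with
  | b i' s' h' =>
    rw [adj_bb] at ha
    obtain ⟨rfl, ⟨rfl, h1⟩ | ⟨h1, h2, h3⟩⟩ := ha
    · exact absurd ⟨h', rfl⟩ hy
    · left
      refine ⟨h2, ?_⟩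
      subst h3
      congr
      cases s <;> cases s' <;> simp_all
  | x i' j hij =>
    rw [adj_bx] at ha
    obtain ⟨rfl, h2⟩ := ha
    exact Or.inr ⟨j, hij, h2, rfl⟩
  | m e he => exact absurd ha (by rw [adj_bm]; exact id)

/-- uniqueness of the outside neighbour -/
theorem out_unique (hτ : Function.Injective τ) {i : Fin 4} {s : Bool} {k : Fin 4} {y y' : CV β}
    (hy : y ∉ Bl i s) (hy' : y' ∉ Bl i s)
    (ha : (comp H τ).Adj (CV.b i s (τ k)) y) (ha' : (comp H τ).Adj (CV.b i s (τ k)) y') :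
    y = y' := by
  rcases out_nbr hy ha with ⟨h1, rfl⟩ | ⟨j, hij, h1, rfl⟩ <;>
    rcases out_nbr hy' ha' with ⟨h2, rfl⟩ | ⟨j', hij', h2, rfl⟩
  · rfl
  · exact absurd (hτ (h1.symm.trans h2)) hij'
  · exact absurd (hτ (h2.symm.trans h1)) hij
  · have := hτ (h1.symm.trans h2)
    subst this
    rfl

/-- first exit from a copy -/
theorem first_exit {i : Fin 4} {s : Bool} {z w : CV β} (p : (comp H τ).Walk z w) :
    ∀ h0 : β, z = CV.b i s h0 → w ∉ Bl i s →
    ∃ (k : Fin 4) (q : H.Walk h0 (τ k)) (y : CV β), q.length < p.length ∧ y ∉ Bl i s ∧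
      (comp H τ).Adj (CV.b i s (τ k)) y ∧ s(CV.b i s (τ k), y) ∈ p.edges := by
  induction p with
  | nil =>
    intro h0 hz hw
    exact absurd ⟨h0, hz⟩ hw
  | @cons z z' w h p ih =>
    intro h0 hz hw
    by_cases hz' : z' ∈ Bl i s
    · obtain ⟨h1, hz1⟩ := hz'
      obtain ⟨k, q, y, hl, hy, ha, he⟩ := ih h1 hz1 hw
      subst hz hz1
      rw [adj_bb] at h
      have hadj : H.Adj h0 h1 := by
        rcases h.2 with h | h
        · exact h.2
        · exact absurd rfl h.1
      refine ⟨k, Walk.cons hadj q, y, ?_, hy, ha, ?_⟩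
      · simp only [Walk.length_cons]; omega
      · simp only [Walk.edges_cons, List.mem_cons]; exact Or.inr he
    · subst hz
      have : ∃ k, h0 = τ k := by
        rcases out_nbr hz' h with ⟨h1, _⟩ | ⟨j, _, h1, _⟩
        · exact ⟨i, h1⟩
        · exact ⟨j, h1⟩
      obtain ⟨k, rfl⟩ := this
      exact ⟨k, Walk.nil, z', by simp, hz', h, by simp⟩

/-- the embedding of a copy -/
def emb (H : SimpleGraph β) (τ : Fin 4 → β) (i : Fin 4) (s : Bool) : H →g comp H τ where
  toFun h := CV.b i s h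
  map_rel' := by
    intro a b h
    exact ⟨rfl, Or.inl ⟨rfl, h⟩⟩

theorem emb_inj (i : Fin 4) (s : Bool) : Function.Injective (emb H τ i s) := by
  intro a b h
  have : CV.b i s a = CV.b i s b := h
  simpa using this

/-- pulling back a walk inside a copy -/
theorem pull {i : Fin 4} {s : Bool} {z w : CV β} (p : (comp H τ).Walk z w) :
    (∀ x ∈ p.support, x ∈ Bl i s) →
    ∃ (h h' : β) (e : emb H τ i s h = z) (e' : emb H τ i s h' = w) (q : H.Walk h h'),
      (q.map (emb H τ i s)).copy e e' = p := by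
  induction p with
  | @nil u =>
    intro hx
    obtain ⟨h, rfl⟩ := hx u (by simp)
    exact ⟨h, h, rfl, rfl, Walk.nil, rfl⟩
  | @cons z z' w hzz p ih =>
    intro hx
    obtain ⟨h1, h', e1, e', q, hq⟩ := ih (fun x hx' => hx x (by simp [hx']))
    obtain ⟨h, rfl⟩ := hx z (by simp)
    subst e1 e'
    have hadj : H.Adj h h1 := by
      have h2 : (comp H τ).Adj (CV.b i s h) (CV.b i s h1) := hzz
      rw [adj_bb] at h2
      rcases h2.2 with h | h
      · exact h.2
      · exact absurd rfl h.1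
    refine ⟨h, h', rfl, rfl, Walk.cons hadj q, ?_⟩
    simp only [Walk.copy_rfl_rfl] at hq ⊢
    subst hq
    rfl

/-- every cycle meets a copy -/
theorem meets {v : CV β} (c : (comp H τ).Walk v v) (hc : c.IsCycle) :
    ∃ i s h, CV.b i s h ∈ c.support := by
  classical
  by_contra hcon
  push Not at hcon
  -- a vertex of type x
  have hx : ∃ i j hij, CV.x i j hij ∈ c.support := by
    have hgen : ∀ v' : CV β, v' ∈ c.support → (∃ i j hij, CV.x i j hij = v') ∨
        ∃ e he, CV.m e he = v' := by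
      intro v' hv'
      cases v' with
      | b i s h => exact absurd hv' (hcon i s h)
      | x i j hij => exact Or.inl ⟨i, j, hij, rfl⟩
      | m e he => exact Or.inr ⟨e, he, rfl⟩
    rcases hgen v c.start_mem_support with ⟨i, j, hij, hv⟩ | ⟨e, he, hv⟩
    · exact ⟨i, j, hij, by rw [hv]; exact c.start_mem_support⟩
    · have hadj : (comp H τ).Adj v c.snd := c.adj_snd hc.not_nil
      have hs : c.snd ∈ c.support := c.getVert_mem_support 1
      rcases hgen c.snd hs with ⟨i, j, hij, hv'⟩ | ⟨e', he', hv'⟩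
      · exact ⟨i, j, hij, by rw [hv']; exact hs⟩
      · have hmm : ∀ a b : CV β, CV.m e he = a → CV.m e' he' = b → ¬ (comp H τ).Adj a b := by
          rintro _ _ rfl rfl h
          exact absurd h (by rw [adj_mm]; exact id)
        exact absurd hadj (hmm _ _ hv hv')
  obtain ⟨i, j, hij, hx⟩ := hx
  obtain ⟨c1, hc1, hs1⟩ : ∃ c1 : (comp H τ).Walk (CV.x i j hij) (CV.x i j hij), c1.IsCycle ∧
      ∀ x ∈ c1.support, x ∈ c.support :=
    ⟨c.rotate _ hx, hc.rotate hx, fun x h => (c.mem_support_rotate_iff _ hx).1 h⟩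
  have hm : ∀ y : CV β, y ∈ c1.support → (comp H τ).Adj (CV.x i j hij) y →
      ∃ he : ¬ s(i, j).IsDiag, y = CV.m s(i, j) he := by
    intro y hy ha
    cases y with
    | b i' s' h' => exact absurd (hs1 _ hy) (hcon i' s' h')
    | x i' j' h' => exact absurd ha (by rw [adj_xx]; exact id)
    | m e he =>
      rw [adj_xm] at ha
      subst ha
      exact ⟨he, rfl⟩
  obtain ⟨he, h1⟩ := hm c1.snd (c1.getVert_mem_support 1) (c1.adj_snd hc1.not_nil)
  obtain ⟨he', h2⟩ := hm c1.penultimate (c1.getVert_mem_support _)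
    (c1.adj_penultimate hc1.not_nil).symm
  exact hc1.snd_ne_penultimate (h1.trans h2.symm)

end CG

open CG SimpleGraph in
theorem CGIRTH : S_CGIRTH := by
  classical
  intro g B v c hc
  obtain ⟨i, s, h, hb⟩ := meets c hc
  by_cases hall : ∀ x ∈ c.support, x ∈ Bl i s
  · obtain ⟨h1, h2, e1, e2, q, hq⟩ := pull c hall
    have h12 : h1 = h2 := emb_inj i s (e1.trans e2.symm)
    subst h12
    subst e1
    simp only [Walk.copy_rfl_rfl] at hq
    subst hq
    have hq' : q.IsCycle := (Walk.isCycle_map_iff_of_injective (emb_inj i s)).1 hc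
    have := B.girth h1 q hq'
    simpa using this
  · push Not at hall
    obtain ⟨y, hy, hyB⟩ := hall
    -- a boundary dart
    obtain ⟨w, u, hwu, hwB, huB, hadj⟩ : ∃ w u, s(w, u) ∈ c.edges ∧ w ∉ Bl i s ∧
        u ∈ (Bl i s : Set (CV B.β)) ∧ (comp B.H B.τ).Adj w u := by
      have hb' : CV.b i s h ∈ (c.rotate y hy).support :=
        (c.mem_support_rotate_iff _ hy).2 hb
      obtain ⟨d, hd, hd1, hd2⟩ := ((c.rotate y hy).takeUntil _ hb').exists_boundary_dart
        (Bl i s)ᶜ hyB (by simp only [Set.mem_compl_iff, not_not]; exact ⟨h, rfl⟩)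
      refine ⟨d.fst, d.snd, ?_, hd1, by simpa using hd2, d.adj⟩
      have h3 : d ∈ (c.rotate y hy).darts := Walk.darts_takeUntil_subset_darts _ hb' hd
      have h4 : d ∈ c.darts := (c.rotate_darts y hy).mem_iff.1 h3
      exact List.mem_map.2 ⟨d, h4, rfl⟩
    obtain ⟨h0, rfl⟩ := huB
    obtain ⟨p, hp, hpe, hpl⟩ := cycle_edge c hc hwu
    obtain ⟨k, q, y', hl, hy', ha', he'⟩ := first_exit p h0 rfl hwB
    have hj : ∃ j, h0 = B.τ j := by
      rcases out_nbr hwB hadj.symm with ⟨h1, _⟩ | ⟨j, _, h1, _⟩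
      · exact ⟨i, h1⟩
      · exact ⟨j, h1⟩
    obtain ⟨j, rfl⟩ := hj
    by_cases hjk : j = k
    · subst hjk
      exfalso
      have := out_unique B.inj hwB hy' hadj.symm ha'
      subst this
      rw [Sym2.eq_swap] at he'
      exact hpe he'
    · have := B.dist j k hjk q
      omega

end H17CND
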