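import Pool.Agent.E8helper17.CND.CGirth
import Pool.Agent.E8helper22.CND.Add
import Pool.Agent.E8helper73.CND_BALL
import Pool.Agent.E8helper73.CND_EXTDEG
import Pool.Agent.E8helper73.CND_APP
import Pool.Agent.E8helper70.CND.Flow
import Pool.Agent.E8helper70.CND.Cacyc
import Pool.Agent.E8helper89.CND.Seed
import Pool.Agent.E8helper78.CND.Rot
import Pool.Agent.E8helper80.CND_OS
import Pool.Agent.E8helper12.CND_BLOB
import Pool.Agent.E8helper91.CND.Spath
import Pool.Agent.E8helper14.CND.SSplit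
import Pool.Agent.E8helper9.CND.Cnd

/-!
# Assembly of the CND project
-/

namespace H17CND

open SimpleGraph

instance finiteCV {β : Type} [Finite β] : Finite (CV β) := by
  classical
  let f : CV β → (Fin 4 × Bool × β) ⊕ (Fin 4 × Fin 4) ⊕ Sym2 (Fin 4) := fun v =>
    match v with
    | .b i s h => Sum.inl (i, s, h)
    | .x i j _ => Sum.inr (Sum.inl (i, j))
    | .m e _ => Sum.inr (Sum.inr e)
  refine Finite.of_injective f ?_
  intro u v h
  cases u <;> cases v <;> simp_all [f]

instance nonemptyCV {β : Type} : Nonempty (CV β) := ⟨CV.x 0 1 (by decide)⟩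

theorem cardCV {β : Type} [Finite β] : 3 ≤ Nat.card (CV β) := by
  classical
  let f : Fin 3 → CV β := fun k =>
    if k = 0 then CV.x 0 1 (by decide) else if k = 1 then CV.x 0 2 (by decide)
      else CV.x 0 3 (by decide)
  have hf : Function.Injective f := by
    intro a b h
    fin_cases a <;> fin_cases b <;> simp [f] at h ⊢
  have := Nat.card_le_card_of_injective f hf
  simpa using this

theorem girth_of (V : Type) (G : SimpleGraph V) (g : ℕ) (h : GirthGE G g) (hG : ¬ G.IsAcyclic) :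
    g ≤ G.girth := by
  obtain ⟨a, w, hw, he⟩ := G.exists_girth_eq_length.2 hG
  rw [he]
  exact h a w hw

theorem final (hBlob : S_BLOB) (hLong : S_LONG) (hNotr : S_NOTR) (hG : S_CGIRTH)
    (hA : S_CACYC) (hC : S_CND) : S_RESULT := by
  intro g
  obtain ⟨B⟩ := hBlob g
  haveI := B.fin
  refine ⟨CV B.β, inferInstance, comp B.H B.τ, ?_, hA g B, ?_⟩
  · exact hC (CV B.β) (comp B.H B.τ) cardCV (fun l hl => hNotr B.β B.H B.τ l hl)
      (fun v => hLong g B v)
  · exact girth_of _ _ g (hG g B) (hA g B)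

theorem result_of (hCyc : S_CYC) (hBase : S_EXT → S_DEG → S_CYC → S_BASE)
    (hLong : S_APP → S_ONE → S_SPATH → S_SSPLIT → S_LONG) (hNotr : S_NOTR) : S_RESULT := by
  have hADD : S_ADD := Pool.Agent.E8helper22.CND.ADD
  have hBALL : S_BALL := Pool.Agent.E8helper73.CND.BALL
  have hDEG : S_DEG := Pool.Agent.E8helper73.CND.DEG
  have hEXT : S_EXT := Pool.Agent.E8helper73.CND.EXT hADD hBALL
  have hFLOW : S_FLOW := Pool.Agent.E8helper70.CND.FLOW hEXT hDEG
  have hSEED : S_SEED := Pool.Agent.E8helper89.CND.SEED hEXT hDEG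
  have hROT : S_ROT := H78CNDRot.t_ROT
  have hOS : S_OS := H17CND.H80OS.OS hFLOW hSEED hROT
  have hBASE : S_BASE := hBase hEXT hDEG hCyc
  have hBLOB : S_BLOB := Pool.Agent.E8helper12.CNDB.BLOB hBASE hOS
  have hAPP : S_APP := Pool.Agent.E8helper73.CND.APP
  have hREV : S_REV := Pool.Agent.E8helper73.CND.REV
  have hONE : S_ONE := Pool.Agent.E8helper73.CND.ONE
  have hBLP : S_BLP := Pool.Agent.E8helper73.CND.BLP
  have hSP : S_SPATH := Pool.Agent.E8helper91.CND.SPATH hAPP hREV hONE hBLP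
  have hSS : S_SSPLIT := E8helper14.CND.SSPLIT hAPP hREV hONE hBLP
  exact final hBLOB (hLong hAPP hONE hSP hSS) hNotr CGIRTH
    Pool.Agent.E8helper70.CND.CACYC Pool.Agent.E8helper9.CND.CND

end H17CND
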