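import Mathlib

/-!
# CND graphs of arbitrarily large girth (MP_03af38_co): definitions and statements of the pieces

Plan.  (I) a blob of girth `≥ g`: a finite graph with four terminals, pairwise at distance `≥ g`,
with a Hamiltonian path from every vertex to every terminal (greedy choice of chords of a cycle).
(II) a composite of eight copies of the blob, twelve vertices `x i j` and six vertices `m {i,j}`,
which is not traceable, of girth `≥ g`, and in which every vertex starts a path missing exactly one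
vertex.
-/

namespace H17CND

/-- `l` is the vertex list of a path of `G`. -/
def IsPathList {V : Type*} (G : SimpleGraph V) (l : List V) : Prop :=
  l.Nodup ∧ l.IsChain G.Adj

/-- There is a path of `G` from `u` to `v` whose vertex set is exactly `A`. -/
def HP {V : Type*} (G : SimpleGraph V) (A : Set V) (u v : V) : Prop :=
  ∃ l : List V, IsPathList G l ∧ l.head? = some u ∧ l.getLast? = some v ∧ ∀ x, x ∈ l ↔ x ∈ A

/-- No cycle of `G` is shorter than `g`. -/
def GirthGE {V : Type*} (G : SimpleGraph V) (g : ℕ) : Prop :=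
  ∀ (v : V) (c : G.Walk v v), c.IsCycle → g ≤ c.length

/-- All degrees are at most `D` (used for finite `V` only). -/
def DegLE {V : Type*} (G : SimpleGraph V) (D : ℕ) : Prop :=
  ∀ v, (G.neighborSet v).ncard ≤ D

/-- Every walk from `a` to `b` has length at least `r`. -/
def Far {V : Type*} (G : SimpleGraph V) (a b : V) (r : ℕ) : Prop :=
  ∀ p : G.Walk a b, r ≤ p.length

/-- CND graph: connected, not traceable, every vertex is an endvertex of a longest path. -/
def IsCND {V : Type*} (G : SimpleGraph V) : Prop :=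
  G.Connected ∧
  (¬ ∃ (u v : V) (p : G.Walk u v), p.IsPath ∧ ∀ x, x ∈ p.support) ∧
  ∀ v : V, ∃ (w : V) (p : G.Walk v w), p.IsPath ∧
    ∀ (a b : V) (q : G.Walk a b), q.IsPath → q.length ≤ p.length

/-! ## Part I: the blob -/

/-- The blob of girth `≥ g`. -/
structure Blob (g : ℕ) where
  β : Type
  fin : Finite β
  H : SimpleGraph β
  τ : Fin 4 → β
  inj : Function.Injective τ
  girth : GirthGE H g
  dist : ∀ i j, i ≠ j → Far H (τ i) (τ j) g
  ham : ∀ (i : Fin 4) (v : β), v ≠ τ i → HP H Set.univ v (τ i)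

/-- ADD: adding an edge between far vertices keeps the girth. -/
def S_ADD : Prop := ∀ (V : Type) (G : SimpleGraph V) (g : ℕ) (a b : V), a ≠ b →
  GirthGE G g → Far G a b (g - 1) → GirthGE (G ⊔ SimpleGraph.edge a b) g

/-- BALL: a ball of radius `r` in a graph of degrees `≤ D` has at most `(D+1)^r` points. -/
def S_BALL : Prop := ∀ (V : Type) [Finite V] (G : SimpleGraph V) (D : ℕ), DegLE G D →
  ∀ (a : V) (r : ℕ), {b : V | ∃ p : G.Walk a b, p.length ≤ r}.ncard ≤ (D + 1) ^ r

/-- EXT: a set of more than `(D+1)^g` candidates contains one which can be joined to `a`. -/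
def S_EXT : Prop := ∀ (V : Type) [Finite V] (G : SimpleGraph V) (g D : ℕ) (a : V) (C : Finset V),
  GirthGE G g → DegLE G D → (D + 1) ^ g < C.card →
  ∃ b ∈ C, b ≠ a ∧ Far G a b (g + 1) ∧ GirthGE (G ⊔ SimpleGraph.edge a b) g

open Classical in
/-- DEG: degrees after adding an edge. -/
def S_DEG : Prop := ∀ (V : Type) [Finite V] (G : SimpleGraph V) (a b v : V), a ≠ b →
  ((G ⊔ SimpleGraph.edge a b).neighborSet v).ncard ≤
    (G.neighborSet v).ncard + (if v = a then 1 else 0) + (if v = b then 1 else 0)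

/-- FLOW (static greedy choice): sources `a k` (distinct), candidate sets `C k` with more than
`k + (D+3)^g` elements; there are distinct targets `b k ∈ C k` such that adding all the edges
`a k — b k` keeps girth `≥ g` and raises the degrees by at most 2. -/
def S_FLOW : Prop := ∀ (V : Type) [Finite V] (G : SimpleGraph V) (g D n : ℕ),
  GirthGE G g → DegLE G D →
  ∀ (a : ℕ → V) (C : ℕ → Finset V), (∀ k < n, ∀ l < n, a k = a l → k = l) →
  (∀ k < n, k + (D + 3) ^ g < (C k).card) →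
  ∃ (b : ℕ → V) (G' : SimpleGraph V), G ≤ G' ∧ GirthGE G' g ∧ DegLE G' (D + 2) ∧
    (∀ k < n, b k ∈ C k) ∧ ∀ k < n, G'.Adj (a k) (b k)

/-- SEED (greedy choice of a chain of seeds): windows `C k` (pairwise disjoint) with more than
`(D+3)^g` elements; sources `a 0 = v0`, `a (k+1) = σ (b k)` with `σ` injective on the union of the
windows and never equal to `v0` there. -/
def S_SEED : Prop := ∀ (V : Type) [Finite V] (G : SimpleGraph V) (g D n : ℕ),
  GirthGE G g → DegLE G D →
  ∀ (v0 : V) (σ : V → V) (C : ℕ → Finset V),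
  (∀ k < n, ∀ l < n, ∀ u ∈ C k, ∀ w ∈ C l, σ u = σ w → u = w) →
  (∀ k < n, ∀ u ∈ C k, σ u ≠ v0) →
  (∀ k < n, ∀ l < n, k ≠ l → Disjoint (C k) (C l)) →
  (∀ k < n, (D + 3) ^ g < (C k).card) →
  ∃ (b : ℕ → V) (G' : SimpleGraph V), G ≤ G' ∧ GirthGE G' g ∧ DegLE G' (D + 2) ∧
    (∀ k < n, b k ∈ C k) ∧ (0 < n → G'.Adj v0 (b 0)) ∧
    ∀ k, k + 1 < n → G'.Adj (σ (b k)) (b (k + 1))

/-- A Hamiltonian cycle order of part of the graph: `φ 0, …, φ (N-1)` distinct, consecutive ones
adjacent, and `φ (N-1)` adjacent to `φ 0`. -/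
structure CycOrd {V : Type*} (G : SimpleGraph V) (N : ℕ) (φ : ℕ → V) : Prop where
  inj : ∀ i < N, ∀ j < N, φ i = φ j → i = j
  adj : ∀ i, i + 1 < N → G.Adj (φ i) (φ (i + 1))
  close : G.Adj (φ (N - 1)) (φ 0)

/-- ROT (rotations): `Fl` a set of indices, each `x ∈ Fl` having a chord `φ x — φ (N-1)` or a chord
`φ x — φ (y-1)` with `y ∈ Fl`, `1 ≤ y < x`.  Then for `j-1 ∈ Fl` there is a path from `φ j` to
`φ 0` whose vertex set is `{φ 0, …, φ (N-1)}`. -/
def S_ROT : Prop := ∀ (V : Type) (G : SimpleGraph V) (N : ℕ) (φ : ℕ → V), CycOrd G N φ →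
  ∀ Fl : Set ℕ, (∀ x ∈ Fl, 1 ≤ x ∧ x + 1 < N ∧ (G.Adj (φ x) (φ (N - 1)) ∨
      ∃ y ∈ Fl, 1 ≤ y ∧ y < x ∧ G.Adj (φ x) (φ (y - 1)))) →
  ∀ x ∈ Fl, HP G {v | ∃ i < N, φ i = v} (φ (x + 1)) (φ 0)

/-- OS (one system): adding chords so that from every `φ j`, `(K+1)^2 + 1 < j < N`, there is a path
to `φ 0` through exactly the `φ i`, `i < N`. -/
def S_OS : Prop := ∀ (V : Type) [Finite V] (G : SimpleGraph V) (g D K N : ℕ) (φ : ℕ → V),
  GirthGE G g → DegLE G D → (D + 5) ^ g ≤ K → (K + 1) ^ 2 + 2 < N → CycOrd G N φ →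
  ∃ G' : SimpleGraph V, G ≤ G' ∧ GirthGE G' g ∧ DegLE G' (D + 4) ∧
    ∀ j, (K + 1) ^ 2 + 1 < j → j < N → HP G' {v | ∃ i < N, φ i = v} (φ j) (φ 0)

/-- The cycle graph on `ZMod N`. -/
def cyc (N : ℕ) : SimpleGraph (ZMod N) := SimpleGraph.fromRel (fun a b => b = a + 1)

/-- CYC: the cycle on `ZMod N` has girth `≥ N`. -/
def S_CYC : Prop := ∀ N : ℕ, 3 ≤ N → GirthGE (cyc N) N

/-- BASE: the cycle on `ZMod N` together with one more vertex `none` joined to four vertices. -/
def S_BASE : Prop := ∀ (g N : ℕ), 1 ≤ g → g ≤ N → 7 ^ g < N → 3 ≤ N →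
  ∃ (t : Fin 4 → ZMod N) (G : SimpleGraph (Option (ZMod N))), Function.Injective t ∧
    (∀ a : ZMod N, G.Adj (some a) (some (a + 1))) ∧ (∀ i, G.Adj none (some (t i))) ∧
    GirthGE G g ∧ DegLE G 6

/-- BLOB -/
def S_BLOB : Prop := ∀ g : ℕ, Nonempty (Blob g)

/-! ## Part II: the composite -/

/-- Vertices of the composite: eight blob copies `b i s ·`, ports `x i j` (`i ≠ j`) and middle
vertices `m {i,j}`. -/
inductive CV (β : Type) : Type
  | b (i : Fin 4) (s : Bool) (h : β) : CV β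
  | x (i j : Fin 4) (h : i ≠ j) : CV β
  | m (e : Sym2 (Fin 4)) (h : ¬ e.IsDiag) : CV β

/-- Adjacency of the composite: inside a blob copy as in `H`; the `i`-th terminals of `b i false`
and `b i true` are joined; `x i j` is joined to the `j`-th terminals of `b i false` and `b i true`
and to `m {i,j}`. -/
def cadj {β : Type} (H : SimpleGraph β) (τ : Fin 4 → β) : CV β → CV β → Prop
  | .b i s h, .b i' s' h' => i = i' ∧ ((s = s' ∧ H.Adj h h') ∨ (s ≠ s' ∧ h = τ i ∧ h' = τ i))
  | .b i _ h, .x i' j _ => i = i' ∧ h = τ j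
  | .x i j _, .b i' _ h => i = i' ∧ h = τ j
  | .x i j _, .m e _ => e = s(i, j)
  | .m e _, .x i j _ => e = s(i, j)
  | _, _ => False

/-- The composite graph. -/
def comp {β : Type} (H : SimpleGraph β) (τ : Fin 4 → β) : SimpleGraph (CV β) where
  Adj := cadj H τ
  symm := ⟨by
    intro u v h
    cases u <;> cases v <;> simp only [cadj] at h ⊢ <;> try exact h
    · obtain ⟨rfl, h⟩ := h
      refine ⟨rfl, ?_⟩
      rcases h with ⟨rfl, h⟩ | ⟨hs, h1, h2⟩
      · exact Or.inl ⟨rfl, h.symm⟩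
      · exact Or.inr ⟨fun h => hs h.symm, h2, h1⟩
    · exact ⟨h.1.symm, h.2⟩
    · exact ⟨h.1.symm, h.2⟩⟩
  loopless := ⟨by
    intro u h
    cases u <;> simp [cadj] at h⟩

/-- APP: concatenation of paths with given vertex sets. -/
def S_APP : Prop := ∀ (V : Type) (G : SimpleGraph V) (A B : Set V) (u v w z : V),
  HP G A u v → HP G B w z → G.Adj v w → Disjoint A B → HP G (A ∪ B) u z

/-- REV: reversal. -/
def S_REV : Prop := ∀ (V : Type) (G : SimpleGraph V) (A : Set V) (u v : V),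
  HP G A u v → HP G A v u

/-- ONE: the one-vertex path. -/
def S_ONE : Prop := ∀ (V : Type) (G : SimpleGraph V) (u : V), HP G {u} u u

/-- The copy `b i s` as a vertex set. -/
def Bl {β : Type} (i : Fin 4) (s : Bool) : Set (CV β) := {v | ∃ h, v = CV.b i s h}

/-- BLP: the copy `b i s` has a Hamiltonian path from every vertex to every terminal. -/
def S_BLP : Prop := ∀ (g : ℕ) (B : Blob g) (i j : Fin 4) (s : Bool) (v : B.β), v ≠ B.τ j →
  HP (comp B.H B.τ) (Bl i s) (CV.b i s v) (CV.b i s (B.τ j))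

/-- The `i`-th part: both blob copies `b i _` and the three ports `x i _`. -/
def Sp {β : Type} (i : Fin 4) : Set (CV β) :=
  {v | (∃ s h, v = CV.b i s h) ∨ ∃ j h, v = CV.x i j h}

/-- SPATH: through a part from port to port. -/
def S_SPATH : Prop := ∀ (g : ℕ) (B : Blob g) (i j k : Fin 4) (hj : i ≠ j) (hk : i ≠ k), j ≠ k →
  HP (comp B.H B.τ) (Sp i) (CV.x i j hj) (CV.x i k hk)

/-- SSPLIT: for every vertex `v` of the part `i` there is an order `j, k, l` of the other three
indices such that the part splits into a path from `v` to the port `j` and a path from the port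
`k` to the port `l`. -/
def S_SSPLIT : Prop := ∀ (g : ℕ) (B : Blob g) (i : Fin 4) (v : CV B.β), v ∈ Sp i →
  ∃ (j k l : Fin 4) (hj : i ≠ j) (hk : i ≠ k) (hl : i ≠ l) (A A' : Set (CV B.β)),
    j ≠ k ∧ j ≠ l ∧ k ≠ l ∧ Disjoint A A' ∧ A ∪ A' = Sp i ∧
    HP (comp B.H B.τ) A v (CV.x i j hj) ∧ HP (comp B.H B.τ) A' (CV.x i k hk) (CV.x i l hl)

/-- LONG: every vertex of the composite starts a path that misses exactly one vertex. -/
def S_LONG : Prop := ∀ (g : ℕ) (B : Blob g) (v : CV B.β),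
  ∃ (w y : CV B.β), HP (comp B.H B.τ) {z | z ≠ y} v w

/-- NOTR: the composite has no Hamiltonian path. -/
def S_NOTR : Prop := ∀ (β : Type) (H : SimpleGraph β) (τ : Fin 4 → β) (l : List (CV β)),
  IsPathList (comp H τ) l → ¬ ∀ v, v ∈ l

/-- CGIRTH: the composite has girth `≥ g`. -/
def S_CGIRTH : Prop := ∀ (g : ℕ) (B : Blob g), GirthGE (comp B.H B.τ) g

/-- CACYC: the composite contains a cycle. -/
def S_CACYC : Prop := ∀ (g : ℕ) (B : Blob g), ¬ (comp B.H B.τ).IsAcyclic

/-- CND: a finite graph with no Hamiltonian path in which every vertex starts a path missing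
exactly one vertex is a CND graph. -/
def S_CND : Prop := ∀ (V : Type) [Finite V] [Nonempty V] (G : SimpleGraph V), 3 ≤ Nat.card V →
  (∀ l : List V, IsPathList G l → ¬ ∀ v, v ∈ l) →
  (∀ v : V, ∃ w y : V, HP G {z | z ≠ y} v w) → IsCND G

/-- The result. -/
def S_RESULT : Prop := ∀ g : ℕ, ∃ (V : Type) (_ : Finite V) (G : SimpleGraph V),
  IsCND G ∧ ¬ G.IsAcyclic ∧ g ≤ G.girth

end H17CND
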